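import Mathlib
import Pool.Agent.H.MP_eafd9d_co.Alg

namespace Pool.Agent.Results.MP_eafd9d_co.Differ

open Matrix Pool.Agent.H.MP_eafd9d_co

/-- The completely positive semidefinite cone: Gram matrices, for the trace form, of real
symmetric positive semidefinite `d × d` matrices, `d ≥ 1`. -/
def CSPlus {ι : Type} (M : Matrix ι ι ℝ) : Prop :=
  ∃ d : ℕ, 1 ≤ d ∧ ∃ ρ : ι → Matrix (Fin d) (Fin d) ℝ,
    (∀ i, (ρ i).PosSemidef) ∧ ∀ i j, M i j = (ρ i * ρ j).trace

section
variable {U V : Type} [Fintype V]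

/-- condition (C1) -/
def C1 (H : Matrix (U × V) (U × V) ℝ) : Prop :=
  ∀ x x', ∑ y, ∑ y', H (x, y) (x', y') = 1

/-- condition (C2) -/
def C2 (X : SimpleGraph U) (Y : SimpleGraph V) (H : Matrix (U × V) (U × V) ℝ) : Prop :=
  ∀ x x' y y', X.Adj x x' → ¬ Y.Adj y y' → H (x, y) (x', y') = 0

/-- condition (C3) -/
def C3 (H : Matrix (U × V) (U × V) ℝ) : Prop :=
  ∀ x y y', y ≠ y' → H (x, y) (x, y') = 0

/-- weak homomorphism for the completely positive semidefinite cone -/
def WeakHom (X : SimpleGraph U) (Y : SimpleGraph V) : Prop :=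
  ∃ H : Matrix (U × V) (U × V) ℝ, CSPlus H ∧ C1 H ∧ C2 X Y H

/-- strong homomorphism for the completely positive semidefinite cone -/
def StrongHom (X : SimpleGraph U) (Y : SimpleGraph V) : Prop :=
  ∃ H : Matrix (U × V) (U × V) ℝ, CSPlus H ∧ C1 H ∧ C2 X Y H ∧ C3 H

end

def cst (q : Fin 7) (a : Fin 4) : ℤ := if q = 6 ∧ a ≠ 0 then 8 else 12

theorem N_sq : ∀ q a, ∀ i j : Fin 4, ∑ k : Fin 4, N q a k i * N q a k j = cst q a * N q a i j := by
  decide +kernel

theorem N_sum : ∀ q, ∀ i j : Fin 4, ∑ a : Fin 4, N q a i j = if i = j then 12 else 0 := by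
  decide +kernel

noncomputable def Nr (v : Fin 7 × Fin 4) : Matrix (Fin 4) (Fin 4) ℝ :=
  fun i j => (N v.1 v.2 i j : ℝ) / 24

theorem Nr_psd (v : Fin 7 × Fin 4) : (Nr v).PosSemidef := by
  have hc : (0 : ℝ) < cst v.1 v.2 := by
    unfold cst; split_ifs <;> norm_num
  have : Nr v = ((24 : ℝ) / cst v.1 v.2) • ((Nr v)ᴴ * Nr v) := by
    ext i j
    have h := congrArg (fun z : ℤ => (z : ℝ)) (N_sq v.1 v.2 i j)
    simp only [Int.cast_sum, Int.cast_mul] at h
    simp only [Matrix.smul_apply, Matrix.mul_apply, conjTranspose_apply, star_trivial, Nr,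
      smul_eq_mul]
    have e : ∑ k : Fin 4, (N v.1 v.2 k i : ℝ) / 24 * ((N v.1 v.2 k j : ℝ) / 24) =
        (∑ k : Fin 4, (N v.1 v.2 k i : ℝ) * (N v.1 v.2 k j : ℝ)) / 576 := by
      rw [Finset.sum_div]
      refine Finset.sum_congr rfl fun k _ => by ring
    rw [e, h]
    field_simp
    ring
  rw [this]
  exact (posSemidef_conjTranspose_mul_self _).smul (by positivity)

theorem Nr_sum (q : Fin 7) : ∑ a, Nr (q, a) = (1 / 2 : ℝ) • (1 : Matrix (Fin 4) (Fin 4) ℝ) := by
  ext i j
  have h := congrArg (fun z : ℤ => (z : ℝ)) (N_sum q i j)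
  simp only [Int.cast_sum] at h
  simp only [Matrix.sum_apply, Nr, Matrix.smul_apply, Matrix.one_apply, smul_eq_mul]
  rw [← Finset.sum_div, h]
  split_ifs <;> norm_num

theorem Nr_tr (v w : Fin 7 × Fin 4) : (Nr v * Nr w).trace = (T v w : ℝ) / 576 := by
  simp only [Matrix.trace, Matrix.diag, Matrix.mul_apply, Nr, T, Int.cast_sum, Int.cast_mul,
    Finset.sum_div]
  refine Finset.sum_congr rfl fun i _ => Finset.sum_congr rfl fun j _ => by ring

theorem weak : WeakHom (⊤ : SimpleGraph (Fin 7)) Y := by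
  let ρ : Fin 7 × (Fin 7 × Fin 4) → Matrix (Fin 4) (Fin 4) ℝ :=
    fun p => if p.2.1 = p.1 then Nr p.2 else 0
  have hs : ∀ x, ∑ y, ρ (x, y) = (1 / 2 : ℝ) • (1 : Matrix (Fin 4) (Fin 4) ℝ) := by
    intro x
    rw [Fintype.sum_prod_type, Finset.sum_eq_single x]
    · simp only [ρ, if_true]; exact Nr_sum x
    · intro b _ hb
      simp [ρ, hb]
    · simp
  refine ⟨fun p p' => (ρ p * ρ p').trace, ⟨4, by norm_num, ρ, ?_, fun _ _ => rfl⟩, ?_, ?_⟩
  · intro p
    simp only [ρ]
    split_ifs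
    · exact Nr_psd _
    · exact PosSemidef.zero
  · intro x x'
    have : ∑ y, ∑ y', (ρ (x, y) * ρ (x', y')).trace =
        ((∑ y, ρ (x, y)) * ∑ y', ρ (x', y')).trace := by
      rw [Finset.sum_mul_sum, trace_sum]
      refine Finset.sum_congr rfl fun y _ => ?_
      rw [trace_sum]
    rw [this, hs, hs]
    simp
    norm_num
  · intro x x' y y' hx hy
    simp only [ρ]
    split_ifs with h1 h2
    · have hne : y.1 ≠ y'.1 := by rw [h1, h2]; exact hx.ne
      have : T y y' = 0 := by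
        by_contra h
        exact hy ⟨hne, h⟩
      rw [Nr_tr, this]; simp
    · simp
    · simp
    · simp

open scoped MatrixOrder in
theorem mul_eq_zero_of_trace {d : ℕ} {A B : Matrix (Fin d) (Fin d) ℝ} (hA : A.PosSemidef)
    (hB : B.PosSemidef) (h : (A * B).trace = 0) : A * B = 0 := by
  obtain ⟨a, rfl⟩ := CStarAlgebra.nonneg_iff_eq_star_mul_self.mp hA.nonneg
  obtain ⟨b, rfl⟩ := CStarAlgebra.nonneg_iff_eq_star_mul_self.mp hB.nonneg
  simp only [star_eq_conjTranspose] at h ⊢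
  have h2 : ((a * bᴴ)ᴴ * (a * bᴴ)).trace = 0 := by
    rw [conjTranspose_mul, conjTranspose_conjTranspose, ← h]
    rw [show b * aᴴ * (a * bᴴ) = b * (aᴴ * a * bᴴ) by simp only [Matrix.mul_assoc],
      trace_mul_comm]
    simp only [Matrix.mul_assoc]
  have h3 := trace_conjTranspose_mul_self_eq_zero_iff.1 h2
  calc aᴴ * a * (bᴴ * b) = aᴴ * (a * bᴴ) * b := by simp only [Matrix.mul_assoc]
    _ = 0 := by rw [h3]; simp

theorem not_strong : ¬ StrongHom (⊤ : SimpleGraph (Fin 7)) Y := by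
  rintro ⟨H, ⟨d, -, ρ, hρ, hH⟩, h1, h2, h3⟩
  have z2 : ∀ x x' y y', x ≠ x' → ¬ Y.Adj y y' → ρ (x, y) * ρ (x', y') = 0 :=
    fun x x' y y' hx hy => mul_eq_zero_of_trace (hρ _) (hρ _) (by
      rw [← hH]; exact h2 x x' y y' (by simpa using hx) hy)
  have z3 : ∀ x y y', y ≠ y' → ρ (x, y) * ρ (x, y') = 0 :=
    fun x y y' hy => mul_eq_zero_of_trace (hρ _) (hρ _) (by rw [← hH]; exact h3 x y y' hy)
  set σ : Fin 7 → Matrix (Fin d) (Fin d) ℝ := fun x => ∑ y, ρ (x, y) with hσ
  have t1 : ∀ x x', (σ x * σ x').trace = 1 := by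
    intro x x'
    rw [← h1 x x']
    simp only [hσ]
    rw [Finset.sum_mul_sum, trace_sum]
    refine Finset.sum_congr rfl fun y _ => ?_
    rw [trace_sum]
    refine Finset.sum_congr rfl fun y' _ => (hH _ _).symm
  have hσh : ∀ x, (σ x).IsHermitian := fun x =>
    (posSemidef_sum _ fun y _ => hρ (x, y)).isHermitian
  have hσ0 : ∀ x, σ x = σ 0 := by
    intro x
    have : ((σ x - σ 0)ᴴ * (σ x - σ 0)).trace = 0 := by
      rw [conjTranspose_sub, (hσh x).eq, (hσh 0).eq, Matrix.sub_mul, Matrix.mul_sub,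
        Matrix.mul_sub, trace_sub, trace_sub, trace_sub, t1, t1, t1, t1]
      norm_num
    exact sub_eq_zero.1 (trace_conjTranspose_mul_self_eq_zero_iff.1 this)
  set r := σ 0 with hr
  set R : Fin 7 × Fin 4 → Matrix (Fin d) (Fin d) ℝ := fun v => ∑ x, ρ (x, v) with hR
  have hRh : ∀ v, (R v).IsHermitian := fun v =>
    (posSemidef_sum _ fun x _ => hρ (x, v)).isHermitian
  have RR : ∀ v w, v ≠ w → ¬ Y.Adj v w → R v * R w = 0 := by
    intro v w hvw hadj
    simp only [hR]
    rw [Finset.sum_mul_sum]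
    refine Finset.sum_eq_zero fun x _ => Finset.sum_eq_zero fun x' _ => ?_
    by_cases hx : x = x'
    · subst hx; exact z3 _ _ _ hvw
    · exact z2 _ _ _ _ hx hadj
  have Rsq : ∀ v, R v * R v = ∑ x, ρ (x, v) * ρ (x, v) := by
    intro v
    simp only [hR]
    rw [Finset.sum_mul_sum]
    refine Finset.sum_congr rfl fun x _ => ?_
    rw [Finset.sum_eq_single x]
    · intro b _ hb
      exact z2 _ _ _ _ hb.symm (Y.loopless.irrefl v)
    · simp
  have Rr : ∀ v, R v * r = R v * R v := by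
    intro v
    rw [Rsq]
    simp only [hR]
    rw [Finset.sum_mul]
    refine Finset.sum_congr rfl fun x _ => ?_
    rw [← hσ0 x]
    simp only [hσ]
    rw [Finset.mul_sum, Finset.sum_eq_single v]
    · intro b _ hb
      exact z3 _ _ _ hb.symm
    · simp
  have rR : ∀ v, r * R v = R v * R v := by
    intro v
    have := congrArg conjTranspose (Rr v)
    rwa [conjTranspose_mul, conjTranspose_mul, (hRh v).eq, (hσh 0).eq] at this
  set S : Fin 7 → Matrix (Fin d) (Fin d) ℝ := fun q => ∑ a, R (q, a) with hS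
  have hSh : ∀ q, (S q).IsHermitian := fun q =>
    (posSemidef_sum _ fun a _ => posSemidef_sum _ fun x _ => hρ (x, (q, a))).isHermitian
  have SS : ∀ q, S q * S q = r * S q := by
    intro q
    simp only [hS]
    rw [Finset.sum_mul_sum, Finset.mul_sum]
    refine Finset.sum_congr rfl fun a _ => ?_
    rw [rR, Finset.sum_eq_single a]
    · intro b _ hb
      exact RR _ _ (fun h => hb (Prod.ext_iff.1 h).2.symm) (fun h => h.1 rfl)
    · simp
  have sumS : ∑ q, S q = (7 : ℝ) • r := by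
    have : ∑ q, S q = ∑ x, σ x := by
      simp only [hS, hR, hσ]
      rw [← Fintype.sum_prod_type', Finset.sum_comm]
    rw [this, Finset.sum_congr rfl fun x _ => hσ0 x]
    simp only [Finset.sum_const, Finset.card_univ, Fintype.card_fin]
    rw [← Nat.cast_smul_eq_nsmul ℝ]; norm_num
  have trS : ∀ q, ((r - S q)ᴴ * (r - S q)).trace = 1 - (r * S q).trace := by
    intro q
    rw [conjTranspose_sub, (hσh 0).eq, (hSh q).eq, Matrix.sub_mul, Matrix.mul_sub,
      Matrix.mul_sub, SS, trace_sub, trace_sub, trace_sub, t1, trace_mul_comm (S q) r]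
    ring
  have tot : ∑ q, ((r - S q)ᴴ * (r - S q)).trace = 0 := by
    rw [Finset.sum_congr rfl fun q _ => trS q, Finset.sum_sub_distrib, ← trace_sum,
      ← Finset.mul_sum, sumS, Matrix.mul_smul, trace_smul, t1]
    simp
  have Sr : ∀ q, S q = r := by
    intro q
    have := (Finset.sum_eq_zero_iff_of_nonneg fun q _ =>
      (posSemidef_conjTranspose_mul_self (r - S q)).trace_nonneg).1 tot q (Finset.mem_univ _)
    exact (sub_eq_zero.1 (trace_conjTranspose_mul_self_eq_zero_iff.1 this)).symm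
  have r0 : r ≠ 0 := by
    intro h
    have := t1 0 0
    rw [← hr, h] at this
    simp at this
  obtain ⟨u, t, ht, hu, hru⟩ := (hσh 0).exists_eigenvector_of_ne_zero r0
  let E : Submodule ℝ (Fin d → ℝ) := LinearMap.ker (Matrix.toLin' r - t • LinearMap.id)
  have memE : ∀ w, w ∈ E ↔ r *ᵥ w = t • w := by
    intro w
    simp [E, sub_eq_zero]
  have inv : ∀ v, ∀ w ∈ E, Matrix.toLin' (R v) w ∈ E := by
    intro v w hw
    rw [memE] at hw ⊢
    rw [Matrix.toLin'_apply, mulVec_mulVec, rR, ← Rr, ← mulVec_mulVec, hw, mulVec_smul]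
  let P : Fin 7 × Fin 4 → Module.End ℝ E := fun v => t⁻¹ • (Matrix.toLin' (R v)).restrict (inv v)
  have hP1 : ∀ q, ∑ a, P (q, a) = 1 := by
    intro q
    ext w : 1
    apply Subtype.ext
    have hw := (memE _).1 w.2
    have : ((∑ a, P (q, a)) w : Fin d → ℝ) = t⁻¹ • ((S q) *ᵥ w) := by
      simp only [P, hS, LinearMap.sum_apply, LinearMap.smul_apply, Submodule.coe_sum,
        Submodule.coe_smul, LinearMap.restrict_coe_apply, Matrix.toLin'_apply, sum_mulVec,
        Finset.smul_sum]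
    rw [this, Sr, hw, smul_smul, inv_mul_cancel₀ ht, one_smul]
    rfl
  have hP2 : ∀ v w, v ≠ w → ¬ Y.Adj v w → P v * P w = 0 := by
    intro v w hvw hadj
    ext z : 1
    apply Subtype.ext
    simp only [P, Module.End.mul_apply, LinearMap.smul_apply, Submodule.coe_smul,
      LinearMap.restrict_coe_apply, Matrix.toLin'_apply, map_smul, mulVec_mulVec, RR v w hvw hadj]
    simp
  have h10 : (1 : Module.End ℝ E) = 0 := no_rep (A := Module.End ℝ E) (P := P) hP1 hP2
  have : (1 : Module.End ℝ E) ⟨u, (memE u).2 hru⟩ = 0 := by rw [h10]; rfl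
  exact hu (congrArg Subtype.val this)

/-- There are finite simple graphs `X` (on 7 vertices) and `Y` (on 28 vertices) with a weak
but no strong completely positive semidefinite homomorphism from `X` to `Y`. -/
theorem result : ∃ (X : SimpleGraph (Fin 7)) (Y : SimpleGraph (Fin 7 × Fin 4)),
    WeakHom X Y ∧ ¬ StrongHom X Y :=
  ⟨⊤, Y, weak, not_strong⟩

end Pool.Agent.Results.MP_eafd9d_co.Differ
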